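import Pool.Agent.Helper86.SG.Defs

/-! MP_66bcf1_co, package RUL. -/

open Finset

namespace Pool.Agent.Helper22.SG

open _root_.SJ (supp IsV dot fib)
open _root_.SG (Str Clash HH RULStm)

theorem member {n k d : ℕ} {F : Finset (Fin n → ℤ)} {S : Finset (Fin n)} {f : Fin n}
    {c : Fin n → ℤ} (hS : #S = k) (h : Str k d F S f c) {A : Finset (Fin n)} (hA : A ⊆ S)
    {p : Fin n → ℤ} (hp : ∀ i, p i = 1 ∨ p i = -1)
    (hd : #((A.erase f).filter (fun i => p i ≠ c i)) ≤ d) :
    ∃ v ∈ F, supp v = S ∧ ∀ x ∈ A, v x = p x := by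
  obtain ⟨hf, hc, hmem⟩ := h
  set v : Fin n → ℤ := fun i => if i ∈ S then (if i ∈ A then p i else c i) else 0 with hv
  have hsup : supp v = S := by
    ext i
    simp only [supp, mem_filter, mem_univ, true_and, hv]
    by_cases h1 : i ∈ S
    · by_cases h2 : i ∈ A
      · rcases hp i with h3 | h3 <;> simp [h1, h2, h3]
      · rcases hc i with h3 | h3 <;> simp [h1, h2, h3]
    · simp [h1]
  have hV : IsV n k v := by
    refine ⟨fun i => ?_, by rw [hsup, hS]⟩
    simp only [hv]
    by_cases h1 : i ∈ S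
    · by_cases h2 : i ∈ A
      · rcases hp i with h3 | h3 <;> simp [h1, h2, h3]
      · rcases hc i with h3 | h3 <;> simp [h1, h2, h3]
    · simp [h1]
  have hdis : #((S.erase f).filter (fun i => v i ≠ c i)) ≤ d := by
    refine (card_le_card ?_).trans hd
    intro i hi
    rw [mem_filter, mem_erase] at hi ⊢
    obtain ⟨⟨h1, h2⟩, h3⟩ := hi
    by_cases h4 : i ∈ A
    · refine ⟨⟨h1, h4⟩, ?_⟩
      simpa [hv, h2, h4] using h3
    · exfalso
      apply h3
      simp [hv, h2, h4]
  refine ⟨v, (hmem v hV hsup).2 hdis, hsup, fun x hx => ?_⟩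
  simp [hv, hA hx, hx]

theorem key {n k d : ℕ} {F : Finset (Fin n → ℤ)} {S S' : Finset (Fin n)} (hS : #S = k)
    (hS' : #S' = k) {f f' : Fin n} {c c' : Fin n → ℤ} (h : Str k d F S f c)
    (h' : Str k d F S' f' c') {A : Finset (Fin n)} (hA : A ⊆ S ∩ S') (hAc : #A = 2 * d + 2)
    (hD : #(A.filter (fun i => i ≠ f ∧ i ≠ f' ∧ c i = c' i)) ≤ 2 * d) : S ∈ HH k d F := by
  classical
  set D : Finset (Fin n) := A.filter (fun i => i ≠ f ∧ i ≠ f' ∧ c i = c' i) with hDdef
  obtain ⟨D1, hD1, hD1c⟩ : ∃ D1 ⊆ D, #D1 = min d #D :=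
    exists_subset_card_eq (min_le_right _ _)
  have hsd : #(D \ D1) ≤ d := by
    rw [card_sdiff_of_subset hD1]
    omega
  have hD1d : #D1 ≤ d := by omega
  have hc := h.2.1
  have hc' := h'.2.1
  set p : Fin n → ℤ := fun i => if i ∈ D1 then - c i else if i = f then - c' i else c i with hp
  have hps : ∀ i, p i = 1 ∨ p i = -1 := by
    intro i
    simp only [hp]
    rcases hc i with h1 | h1 <;> rcases hc' i with h2 | h2 <;> split_ifs <;> simp [h1, h2]
  have hns : ∀ i, -p i = 1 ∨ -p i = -1 := by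
    intro i
    rcases hps i with h1 | h1 <;> simp [h1]
  have h1 : #((A.erase f).filter (fun i => p i ≠ c i)) ≤ d := by
    refine (card_le_card ?_).trans hD1d
    intro i hi
    rw [mem_filter, mem_erase] at hi
    obtain ⟨⟨h2, h3⟩, h4⟩ := hi
    by_contra hcon
    apply h4
    simp [hp, hcon, h2]
  have h2 : #((A.erase f').filter (fun i => -p i ≠ c' i)) ≤ d := by
    refine (card_le_card ?_).trans hsd
    intro i hi
    rw [mem_filter, mem_erase] at hi
    obtain ⟨⟨h3, h4⟩, h5⟩ := hi
    rw [mem_sdiff]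
    by_cases h6 : i ∈ D1
    · exfalso
      apply h5
      have h7 := (mem_filter.1 (hD1 h6)).2.2.2
      simp [hp, h6, h7]
    · refine ⟨?_, h6⟩
      by_cases h7 : i = f
      · exfalso
        apply h5
        subst h7
        simp [hp, h6]
      · refine mem_filter.2 ⟨h4, h7, h3, ?_⟩
        have h8 : p i = c i := by simp [hp, h6, h7]
        rw [h8] at h5
        rcases hc i with h9 | h9 <;> rcases hc' i with h10 | h10 <;> rw [h9, h10] at h5 ⊢ <;>
          simp at h5
  obtain ⟨v, hv, hvs, hvA⟩ := member hS h (hA.trans inter_subset_left) hps h1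
  obtain ⟨w, hw, hws, hwA⟩ := member hS' h' (hA.trans inter_subset_right) hns h2
  rw [HH, mem_filter]
  refine ⟨mem_powersetCard.2 ⟨subset_univ _, hS⟩, v, hv, hvs, A, hAc, ?_, w, hw, ?_⟩
  · rw [hvs]
    exact hA.trans inter_subset_left
  · intro x hx
    rw [hwA x hx, hvA x hx]

theorem rul : RULStm := by
  classical
  intro n k d F hk hF S S' hS hS' hSH hint f f' c c' h h'
  constructor
  · intro hf hf'
    by_contra hne
    obtain ⟨A, hA1, hA2, hA3⟩ := exists_subsuperset_card_eq
      (s := ({f, f'} : Finset (Fin n))) (t := S ∩ S') (n := 2 * d + 2) (by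
        intro i hi
        rw [mem_insert, mem_singleton] at hi
        rw [mem_inter]
        rcases hi with rfl | rfl
        · exact ⟨h.1, hf⟩
        · exact ⟨hf', h'.1⟩) (by
        rw [card_pair hne]; omega) hint
    refine hSH (key hS hS' h h' hA2 hA3 ?_)
    have h1 : A.filter (fun i => i ≠ f ∧ i ≠ f' ∧ c i = c' i) ⊆ A \ {f, f'} := by
      intro i hi
      rw [mem_filter] at hi
      rw [mem_sdiff, mem_insert, mem_singleton]
      exact ⟨hi.1, fun h2 => h2.elim hi.2.1 hi.2.2.1⟩
    have h2 := card_le_card h1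
    rw [card_sdiff_of_subset hA1, card_pair hne] at h2
    omega
  · rintro rfl y hy hyf
    by_contra hne
    obtain ⟨A, hA1, hA2, hA3⟩ := exists_subsuperset_card_eq
      (s := ({f, y} : Finset (Fin n))) (t := S ∩ S') (n := 2 * d + 2) (by
        intro i hi
        rw [mem_insert, mem_singleton] at hi
        rcases hi with rfl | rfl
        · exact mem_inter.2 ⟨h.1, h'.1⟩
        · exact hy) (by
        rw [card_pair (Ne.symm hyf)]; omega) hint
    refine hSH (key hS hS' h h' hA2 hA3 ?_)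
    have h1 : A.filter (fun i => i ≠ f ∧ i ≠ f ∧ c i = c' i) ⊆ A \ {f, y} := by
      intro i hi
      rw [mem_filter] at hi
      rw [mem_sdiff, mem_insert, mem_singleton]
      refine ⟨hi.1, fun h2 => h2.elim hi.2.1 fun h3 => ?_⟩
      rw [h3] at hi
      exact hne hi.2.2.2
    have h2 := card_le_card h1
    rw [card_sdiff_of_subset hA1, card_pair (Ne.symm hyf)] at h2
    omega

end Pool.Agent.Helper22.SG
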